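import Pool.Agent.TH268.CD.All

/-!
# Complete Bose-Einstein condensation of the dilute Bose gas with a fixed number of particles

The Bose gas of `N` particles on the torus of side `L` in dimension `n ≥ 3` with the Hamiltonian

`H_N = ∑_i (-μ Δ_i) + ∑_i (∫ K - K *)_i + ∑_{i<j} v(|x_i - x_j|)`,

where `v ≥ 0` is any pair potential with `0 < ∫ v(|z|) dz < ∞` and `K ≥ 0` is a weak long-range
hopping kernel, whose strength may vanish like any power `ρ^g`, `g < n - 1`, of the density (for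
`n = 3` every `g < 2` is allowed: such a hopping may be weaker than the Lee-Huang-Yang order
`√(ρ a^3)` relative to the other terms).  In the thermodynamic limit at fixed density
`ρ ≈ N / L^n` (the canonical ensemble of the Lee-Huang-Yang problem), the fraction of the particles
in the condensate tends to one as `ρ → 0`, for the ground states and for all near ground states of
`H_N`.
-/

set_option autoImplicit false

open MeasureTheory
open scoped ENNReal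

namespace Pool.Agent.Results.MP_4952d6_mp.CanonicalCompleteCondensation

open Pool.Agent.W761.CB

/-- **Complete condensation in the canonical ensemble.**  `n ≥ 3`, `μ, σ, c, τ > 0`, `σ < n`,
`g < n - 1`, and `v` is a pair potential with `0 < ∫ v(|z|) dz < ∞`.  For every `ε > 0` there is
`ρ₀ > 0` such that for all `ρ ∈ (0, ρ₀]` there are `c₁ > 0` and `L₀` such that for all `L ≥ L₀`, all
kernels `K` with `∫ K(z) min(1, |z|²) dz ≤ ρ₀`, `∫ K(z) min(1, ρ |z|²) dz ≤ τ ρ` and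
`K(z) ≥ c ρ^(g + n/2) (1 + √ρ |z|)^(-(n + σ))` and all `N` with `ρ / 2 ≤ N / L^n ≤ ρ`: every
symmetric `Ψ` of `N` particles and of norm one which minimises the energy of `N` particles up to
`c₁ L^(n - σ)` has at least the fraction `1 - ε` of the particles in the condensate. -/
theorem result (n : ℕ) (hn : 3 ≤ n) (μ σ g c τ : ℝ) (hμ : 0 < μ) (hσ : 0 < σ)
    (hσn : σ < n) (hg : g < n - 1) (hc : 0 < c) (hτ : 0 < τ) (v : ℝ → ℝ≥0∞)
    (hv : Measurable v) (hv0 : ∫⁻ z : Fin n → ℝ, v (el z) ≠ 0)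
    (hv1 : ∫⁻ z : Fin n → ℝ, v (el z) ≠ ⊤) :
    ∀ ε : ℝ, 0 < ε → ∃ ρ₀ : ℝ, 0 < ρ₀ ∧ ∀ ρ : ℝ, 0 < ρ → ρ ≤ ρ₀ → ∃ c₁ L₀ : ℝ, 0 < c₁ ∧
      ∀ (L : ℝ) [Fact (0 < L)] (K : (Fin n → ℝ) → ℝ≥0∞), L₀ ≤ L → Measurable K →
      ∫⁻ z, K z * ENNReal.ofReal (min 1 (el z ^ 2)) ≤ ENNReal.ofReal ρ₀ →
      ∫⁻ z, K z * ENNReal.ofReal (min 1 (ρ * el z ^ 2)) ≤ ENNReal.ofReal (τ * ρ) →
      (∀ z, ENNReal.ofReal (c * ρ ^ (g + n / 2) * (1 + √ρ * el z) ^ (-(n + σ))) ≤ K z) →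
      ∀ N : ℕ, ρ / 2 * L ^ n ≤ N → (N : ℝ) ≤ ρ * L ^ n →
      ∀ Ψ : (Fin N → Tor n L) → ℂ, IsWf2 Ψ →
        (∀ Φ : (Fin N → Tor n L) → ℂ, IsWf Φ →
          enN (ENNReal.ofReal μ) K v Ψ ≤
            enN (ENNReal.ofReal μ) K v Φ + ENNReal.ofReal (c₁ * L ^ (n - σ))) →
        (1 - ε) * N ≤ condN Ψ := by
  intro ε hε
  obtain ⟨ρ₀, hρ₀, h⟩ := (Pool.Agent.TH268.CD.cmain_thm n μ σ g τ c v hn hμ hσ hσn (by linarith)
    hτ hc hv hv0 hv1).2 ε hε
  refine ⟨ρ₀, hρ₀, fun ρ hρ hρle => ?_⟩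
  obtain ⟨c₁, L₀, hc₁, h'⟩ := h ρ hρ hρle
  exact ⟨c₁, L₀, hc₁, fun L _ K hL hK h1 h2 h3 N hN1 hN2 Ψ hΨ hmin =>
    (h' L K hL hK h1 h2 h3 N hN1 hN2 Ψ hΨ hmin).1⟩

end Pool.Agent.Results.MP_4952d6_mp.CanonicalCompleteCondensation
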